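import Mathlib

/-!
# A geometrically nilpotent, non-nilpotent curve for a two-variable polynomial map

Over every finite field `F` of characteristic `p` the map
`T (x, y) = (x ^ p * (1 - (x * y ^ p) ^ ((p - 1) ^ 2)), x * y ^ p)` sends every geometric point of
the line `y = 1` to the origin after finitely many steps, but no single iterate does this for all
points of the line.
-/

open MvPolynomial

namespace Pool.Agent.Results.MP_12bcff_ag.TwoVariables

/-- The self-map of the geometric points of the affine plane over `F` given by the two-variable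
polynomial map `(f, g)`. -/
noncomputable def polyMap {F : Type*} [Field F] (f g : MvPolynomial (Fin 2) F)
    (v : Fin 2 → AlgebraicClosure F) : Fin 2 → AlgebraicClosure F :=
  ![aeval v f, aeval v g]

/-- The geometric points of the closed subvariety of the affine plane over `F` defined by the
vanishing of all polynomials in `S`. -/
def geomPoints {F : Type*} [Field F] (S : Set (MvPolynomial (Fin 2) F)) :
    Set (Fin 2 → AlgebraicClosure F) :=
  {v | ∀ h ∈ S, aeval v h = 0}

/-- `Y` is nilpotent for `T`: some iterate maps all of `Y` to one fixed point. -/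
def IsNilp {X : Type*} (T : X → X) (Y : Set X) : Prop :=
  ∃ P, T P = P ∧ ∃ k, 1 ≤ k ∧ (T^[k]) '' Y = {P}

/-- `Y` is geometrically nilpotent for `T`: each point of `Y` is mapped to one and the same fixed
point by some iterate, which may depend on the point. -/
def IsGeomNilp {X : Type*} (T : X → X) (Y : Set X) : Prop :=
  ∃ P, T P = P ∧ ∀ Q ∈ Y, ∃ k, 1 ≤ k ∧ (T^[k]) Q = P

section Dynamics

/-- The orbit of `(t, 1)`: `seq p t n = (φ_n, N_n)`. -/
def seq {R : Type*} [CommRing R] (p : ℕ) (t : R) : ℕ → R × R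
  | 0 => (t, 1)
  | n + 1 => ((seq p t n).1 ^ p * (1 - ((seq p t n).1 * (seq p t n).2 ^ p) ^ ((p - 1) ^ 2)),
      (seq p t n).1 * (seq p t n).2 ^ p)

variable {K : Type*} [Field K] (p : ℕ) (t : K)

/-- `A_n = φ_n ^ (p - 1)`. -/
def seqA (n : ℕ) : K := (seq p t n).1 ^ (p - 1)
/-- `B_n = φ_n ^ (p - 1) * N_n ^ ((p - 1) ^ 2)`. -/
def seqB (n : ℕ) : K := (seq p t n).1 ^ (p - 1) * (seq p t n).2 ^ ((p - 1) ^ 2)

/-- The additive polynomials `E_n`. -/
def seqE (X : K) : ℕ → K
  | 0 => X
  | n + 1 => (seqE X n) ^ p - seqB p t n * seqE X n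
/-- The additive polynomials `F_n`. -/
def seqF (X : K) : ℕ → K
  | 0 => X
  | n + 1 => (seqF X n) ^ p - (seqB p t n) ^ p * seqF X n

variable {p t}

lemma pow_pred_mul [hp : Fact p.Prime] (x : K) : x ^ (p - 1) * x = x ^ p := by
  rw [← pow_succ]
  congr 1
  have := hp.out.one_lt
  omega

lemma exp_id [hp : Fact p.Prime] : (p - 1) ^ 2 + p = (p - 1) * p + 1 := by
  obtain ⟨q, rfl⟩ : ∃ q, p = q + 1 := ⟨p - 1, by have := hp.out.one_lt; omega⟩
  simp only [Nat.add_sub_cancel]
  ring

lemma exp_id' [hp : Fact p.Prime] : (p - 1) + (p - 1) ^ 2 = (p - 1) * p := by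
  obtain ⟨q, rfl⟩ : ∃ q, p = q + 1 := ⟨p - 1, by have := hp.out.one_lt; omega⟩
  simp only [Nat.add_sub_cancel]
  ring

/-- `φ_{n+1} = φ_n (A_n - B_n ^ p)`. -/
lemma seq_fst_succ [hp : Fact p.Prime] (n : ℕ) :
    (seq p t (n + 1)).1 = (seq p t n).1 * (seqA p t n - seqB p t n ^ p) := by
  simp only [seq, seqA, seqB]
  have h1 := pow_pred_mul (p := p) (seq p t n).1
  have h2 : (seq p t n).1 ^ p * ((seq p t n).1 * (seq p t n).2 ^ p) ^ ((p - 1) ^ 2) =
      (seq p t n).1 * ((seq p t n).1 ^ (p - 1) * (seq p t n).2 ^ ((p - 1) ^ 2)) ^ p := by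
    have e := exp_id (p := p)
    calc (seq p t n).1 ^ p * ((seq p t n).1 * (seq p t n).2 ^ p) ^ ((p - 1) ^ 2)
        = (seq p t n).1 ^ ((p - 1) ^ 2 + p) * (seq p t n).2 ^ (p * (p - 1) ^ 2) := by
          rw [mul_pow, ← pow_mul, pow_add]; ring
      _ = (seq p t n).1 ^ ((p - 1) * p + 1) * (seq p t n).2 ^ (p * (p - 1) ^ 2) := by rw [e]
      _ = _ := by
          rw [mul_pow, ← pow_mul, ← pow_mul, pow_succ, mul_comm p ((p - 1) ^ 2)]; ring
  rw [mul_sub, mul_one, h2, ← h1]
  ring

lemma neg_one_pow_pred [hp : Fact p.Prime] [CharP K p] : (-1 : K) ^ (p - 1) = 1 := by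
  rcases hp.out.eq_two_or_odd' with h | h
  · subst h
    have : (-1 : K) = 1 := by
      have h2 : (2 : K) = 0 := by exact_mod_cast CharP.cast_eq_zero K 2
      linear_combination -h2
    rw [this, one_pow]
  · exact (Nat.Odd.sub_odd h odd_one).neg_one_pow

/-- `A_{n+1} = A_n (A_n - B_n ^ p) ^ (p - 1)`. -/
lemma seqA_succ [hp : Fact p.Prime] (n : ℕ) :
    seqA p t (n + 1) = seqA p t n * (seqA p t n - seqB p t n ^ p) ^ (p - 1) := by
  rw [seqA, seq_fst_succ, mul_pow]
  rfl

/-- `B_{n+1} = B_n ^ p (A_n - B_n ^ p) ^ (p - 1)`. -/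
lemma seqB_succ [hp : Fact p.Prime] (n : ℕ) :
    seqB p t (n + 1) = seqB p t n ^ p * (seqA p t n - seqB p t n ^ p) ^ (p - 1) := by
  rw [seqB, seq_fst_succ, mul_pow]
  have h2 : (seq p t (n + 1)).2 = (seq p t n).1 * (seq p t n).2 ^ p := rfl
  rw [h2]
  have h3 : (seq p t n).1 ^ (p - 1) * ((seq p t n).1 * (seq p t n).2 ^ p) ^ ((p - 1) ^ 2) =
      seqB p t n ^ p := by
    rw [seqB]
    calc (seq p t n).1 ^ (p - 1) * ((seq p t n).1 * (seq p t n).2 ^ p) ^ ((p - 1) ^ 2)
        = (seq p t n).1 ^ ((p - 1) + (p - 1) ^ 2) * (seq p t n).2 ^ (p * (p - 1) ^ 2) := by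
          rw [mul_pow, ← pow_mul, pow_add]; ring
      _ = (seq p t n).1 ^ ((p - 1) * p) * (seq p t n).2 ^ (p * (p - 1) ^ 2) := by
          rw [exp_id' (p := p)]
      _ = _ := by
          rw [mul_pow, ← pow_mul, ← pow_mul, mul_comm p ((p - 1) ^ 2)]
  rw [← h3]
  ring

variable [hp : Fact p.Prime]

lemma seqE_self (n : ℕ) : seqE p t t (n + 1) = 0 := by
  induction n with
  | zero =>
    have : t ^ (p - 1) * t = t ^ p := pow_pred_mul t
    simp [seqE, seqB, seq, this]
  | succ n ih =>
    have e1 : seqE p t t (n + 1 + 1) =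
        (seqE p t t (n + 1)) ^ p - seqB p t (n + 1) * seqE p t t (n + 1) := rfl
    rw [e1, ih, mul_zero, zero_pow hp.out.ne_zero, sub_zero]

variable [CharP K p]

lemma sub_pow_p (a b : K) : (a - b) ^ p = a ^ p - b ^ p := sub_pow_char a b

/-- The factorisation `E_{n+1} = F_n ^ p - A_n F_n`. -/
lemma seqE_succ_eq (X : K) (n : ℕ) :
    seqE p t X (n + 1) = seqF p t X n ^ p - seqA p t n * seqF p t X n := by
  induction n with
  | zero => simp [seqE, seqF, seqA, seqB, seq]
  | succ n ih =>
    have e1 : seqE p t X (n + 1 + 1) =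
        (seqE p t X (n + 1)) ^ p - seqB p t (n + 1) * seqE p t X (n + 1) := rfl
    have e2 : seqF p t X (n + 1) = seqF p t X n ^ p - seqB p t n ^ p * seqF p t X n := rfl
    rw [e1, ih, e2, sub_pow_p, sub_pow_p, seqA_succ, seqB_succ, mul_pow, mul_pow]
    have h1 : (seqA p t n - seqB p t n ^ p) ^ (p - 1) * (seqA p t n - seqB p t n ^ p) =
        seqA p t n ^ p - (seqB p t n ^ p) ^ p := by
      rw [pow_pred_mul, sub_pow_p]
    linear_combination (seqF p t X n ^ p) * h1

/-- `E_n(X) ^ p = F_n(X ^ p)`. -/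
lemma seqE_pow (X : K) (n : ℕ) : seqE p t X n ^ p = seqF p t (X ^ p) n := by
  induction n with
  | zero => rfl
  | succ n ih =>
    rw [seqE, seqF, sub_pow_p, mul_pow, ih]

/-- `E_{n+1}(t ^ (p ^ (n+1))) = E_n(t ^ (p ^ n)) ^ p * (E_n(t^(p^n))^(p(p-1)) - A_n)`, and
`B_n = E_n(t ^ (p ^ n)) ^ (p - 1)`. -/
lemma seqB_eq (n : ℕ) : seqB p t n = (seqE p t (t ^ (p ^ n)) n) ^ (p - 1) := by
  induction n with
  | zero => simp [seqB, seqE, seq]
  | succ n ih =>
    have h0 : seqF p t (t ^ (p ^ (n + 1))) n = (seqE p t (t ^ (p ^ n)) n) ^ p := by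
      rw [seqE_pow, ← pow_mul, ← pow_succ]
    rw [seqE_succ_eq, h0, seqB_succ]
    set δ := seqE p t (t ^ (p ^ n)) n
    have h1 : (δ ^ p) ^ p - seqA p t n * δ ^ p = δ ^ p * ((-1) * (seqA p t n - seqB p t n ^ p)) := by
      rw [ih]
      have : (δ ^ (p - 1)) ^ p * δ ^ p = (δ ^ p) ^ p := by
        rw [← mul_pow, pow_pred_mul]
      linear_combination -this
    rw [h1, mul_pow, mul_pow, neg_one_pow_pred, one_mul, ih]
    congr 1
    rw [← pow_mul, ← pow_mul, mul_comm]

/-- If `t ^ (p ^ n) = t` with `n ≥ 1`, the orbit of `(t, 1)` hits the origin. -/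
lemma exists_seq_eq_zero {n : ℕ} (hn : 1 ≤ n) (ht : t ^ (p ^ n) = t) :
    ∃ m, 1 ≤ m ∧ seq p t m = (0, 0) := by
  classical
  have hB : seqB p t n = 0 := by
    obtain ⟨k, rfl⟩ : ∃ k, n = k + 1 := ⟨n - 1, by omega⟩
    rw [seqB_eq, ht, seqE_self]
    exact zero_pow (by have := hp.out.one_lt; omega)
  have hex : ∃ m, (seq p t m).1 = 0 ∨ (seq p t m).2 = 0 := by
    refine ⟨n, ?_⟩
    rw [seqB, mul_eq_zero] at hB
    rcases hB with h | h
    · exact Or.inl (pow_eq_zero_iff (by have := hp.out.one_lt; omega) |>.1 h)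
    · exact Or.inr (pow_eq_zero_iff (pow_ne_zero 2 (by have := hp.out.one_lt; omega)) |>.1 h)
  obtain ⟨hm, hmin⟩ := And.intro (Nat.find_spec hex) (fun m => Nat.find_min hex (m := m))
  set m := Nat.find hex
  have h1 : (seq p t m).1 = 0 := by
    rcases hm with h | h
    · exact h
    · exfalso
      rcases Nat.eq_zero_or_pos m with h0 | h0
      · rw [h0] at h
        simp [seq] at h
      · obtain ⟨k, hk⟩ : ∃ k, m = k + 1 := ⟨m - 1, by omega⟩
        rw [hk] at h
        have hk' := hmin k (by omega)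
        simp only [seq, mul_eq_zero] at h
        apply hk'
        rcases h with h | h
        · exact Or.inl h
        · exact Or.inr (pow_eq_zero_iff hp.out.ne_zero |>.1 h)
  refine ⟨m + 1, by omega, ?_⟩
  simp only [seq, h1]
  rw [zero_pow hp.out.ne_zero]
  simp

end Dynamics

section Generic

open Polynomial

/-- For the generic starting point `(X, 1)` both coordinates stay nonzero. -/
lemma seq_X_natDegree {R : Type*} [Field R] (p : ℕ) (hp : p.Prime) (n : ℕ) :
    1 ≤ (seq p (X : R[X]) n).1.natDegree ∧ (seq p (X : R[X]) n).2 ≠ 0 := by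
  induction n with
  | zero => simp [seq]
  | succ n ih =>
    obtain ⟨h1, h2⟩ := ih
    have hne : (seq p (X : R[X]) n).1 ≠ 0 := by
      intro h; rw [h] at h1; simp at h1
    set u := (seq p (X : R[X]) n).1
    set v := (seq p (X : R[X]) n).2
    have hw : 1 ≤ (u * v ^ p).natDegree := by
      rw [natDegree_mul hne (pow_ne_zero _ h2)]; omega
    have hw0 : u * v ^ p ≠ 0 := mul_ne_zero hne (pow_ne_zero _ h2)
    have hk : 1 ≤ (p - 1) ^ 2 := Nat.one_le_pow _ _ (by have := hp.one_lt; omega)
    have hdeg : 1 ≤ ((u * v ^ p) ^ ((p - 1) ^ 2)).natDegree := by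
      rw [natDegree_pow]
      exact Nat.mul_le_mul hk hw
    have h3 : 1 ≤ (1 - (u * v ^ p) ^ ((p - 1) ^ 2)).natDegree := by
      have : (1 - (u * v ^ p) ^ ((p - 1) ^ 2)).natDegree =
          ((u * v ^ p) ^ ((p - 1) ^ 2)).natDegree := by
        rw [natDegree_sub_eq_right_of_natDegree_lt]
        rw [natDegree_one]
        exact hdeg
      rw [this]; exact hdeg
    have h4 : (1 - (u * v ^ p) ^ ((p - 1) ^ 2)) ≠ 0 := by
      intro h; rw [h] at h3; simp at h3
    refine ⟨?_, hw0⟩
    change 1 ≤ (u ^ p * (1 - (u * v ^ p) ^ ((p - 1) ^ 2))).natDegree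
    rw [natDegree_mul (pow_ne_zero _ hne) h4]
    omega

lemma eval_seq {R : Type*} [CommRing R] (p : ℕ) (t : R) (n : ℕ) :
    ((seq p (X : R[X]) n).1.eval t, (seq p (X : R[X]) n).2.eval t) = seq p t n := by
  induction n with
  | zero => simp [seq]
  | succ n ih =>
    simp only [seq]
    rw [← ih]
    simp

end Generic

/-- **Geometrically nilpotent, non-nilpotent curves for two-variable polynomial maps.**  Over every
finite field `F` there are a two-variable polynomial map `T = (f, g)` and a nonempty closed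
subvariety `Y` of the affine plane, both defined over `F`, such that `Y` is geometrically nilpotent
but not nilpotent with respect to `T`. -/
theorem result (F : Type*) [Field F] [Finite F] :
    ∃ (f g : MvPolynomial (Fin 2) F) (S : Set (MvPolynomial (Fin 2) F)),
      (geomPoints S).Nonempty ∧ IsGeomNilp (polyMap f g) (geomPoints S) ∧
        ¬ IsNilp (polyMap f g) (geomPoints S) := by
  obtain ⟨p, hchar⟩ := CharP.exists F
  have : Fact p.Prime := ⟨CharP.char_is_prime F p⟩
  have hp : p.Prime := Fact.out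
  have : CharP (AlgebraicClosure F) p := charP_of_injective_algebraMap
    (algebraMap F (AlgebraicClosure F)).injective p
  set f : MvPolynomial (Fin 2) F := X 0 ^ p * (1 - (X 0 * X 1 ^ p) ^ ((p - 1) ^ 2)) with hf
  set g : MvPolynomial (Fin 2) F := X 0 * X 1 ^ p with hg
  have hT : ∀ v : Fin 2 → AlgebraicClosure F, polyMap f g v =
      ![v 0 ^ p * (1 - (v 0 * v 1 ^ p) ^ ((p - 1) ^ 2)), v 0 * v 1 ^ p] := by
    intro v
    simp [polyMap, hf, hg]
  have hiter : ∀ (t : AlgebraicClosure F) (n : ℕ), (polyMap f g)^[n] ![t, 1] =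
      ![(seq p t n).1, (seq p t n).2] := by
    intro t n
    induction n with
    | zero => simp [seq]
    | succ n ih =>
      rw [Function.iterate_succ_apply', ih, hT]
      simp [seq]
  have hY : geomPoints ({X 1 - 1} : Set (MvPolynomial (Fin 2) F)) =
      {v : Fin 2 → AlgebraicClosure F | v 1 = 1} := by
    ext v
    simp [geomPoints, sub_eq_zero]
  have hform : ∀ v : Fin 2 → AlgebraicClosure F, v 1 = 1 → v = ![v 0, 1] := by
    intro v hv
    funext i
    fin_cases i
    · rfl
    · simpa using hv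
  refine ⟨f, g, {X 1 - 1}, ?_, ?_, ?_⟩
  · rw [hY]; exact ⟨![0, 1], by simp⟩
  · refine ⟨![0, 0], ?_, ?_⟩
    · rw [hT]
      simp [hp.ne_zero]
    · intro Q hQ
      rw [hY] at hQ
      rw [hform Q hQ]
      set t := Q 0
      -- `t` lies in a finite field
      obtain ⟨n, hn, ht⟩ : ∃ n, 1 ≤ n ∧ t ^ (p ^ n) = t := by
        have : Algebra.IsAlgebraic F (AlgebraicClosure F) := inferInstance
        have hint : IsIntegral F t := (Algebra.IsAlgebraic.isAlgebraic t).isIntegral
        have : FiniteDimensional F (IntermediateField.adjoin F {t}) :=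
          IntermediateField.adjoin.finiteDimensional hint
        have : Finite (IntermediateField.adjoin F {t}) := Module.finite_of_finite F
        have : Fintype (IntermediateField.adjoin F {t}) := Fintype.ofFinite _
        have : CharP (IntermediateField.adjoin F {t}) p := charP_of_injective_algebraMap
          (algebraMap F (IntermediateField.adjoin F {t})).injective p
        obtain ⟨n, _, hcard⟩ := FiniteField.card (IntermediateField.adjoin F {t}) p
        refine ⟨n, n.2, ?_⟩
        have := FiniteField.pow_card (⟨t, IntermediateField.mem_adjoin_simple_self F t⟩ :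
          IntermediateField.adjoin F {t})
        rw [hcard] at this
        exact congrArg Subtype.val this
      obtain ⟨m, hm, hm'⟩ := exists_seq_eq_zero (p := p) hn ht
      refine ⟨m, hm, ?_⟩
      rw [hiter, hm']
  · rintro ⟨P, hP, k, hk, hk'⟩
    rw [hY] at hk'
    have h0 : (polyMap f g)^[k] ![0, 1] = ![0, 0] := by
      rw [hiter]
      have : ∀ n, seq p (0 : AlgebraicClosure F) (n + 1) = (0, 0) := by
        intro n
        induction n with
        | zero => simp [seq, hp.ne_zero]
        | succ n ih =>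
          rw [seq, ih]
          simp [hp.ne_zero]
      obtain ⟨j, rfl⟩ : ∃ j, k = j + 1 := ⟨k - 1, by omega⟩
      rw [this]
    have hP0 : P = ![0, 0] := by
      have : ![0, 0] ∈ (polyMap f g)^[k] '' {v : Fin 2 → AlgebraicClosure F | v 1 = 1} :=
        ⟨![0, 1], by simp, h0⟩
      rw [hk'] at this
      exact this.symm
    -- all values of `φ_k` vanish
    have hall : ∀ t : AlgebraicClosure F, (seq p t k).1 = 0 := by
      intro t
      have : (polyMap f g)^[k] ![t, 1] ∈
          (polyMap f g)^[k] '' {v : Fin 2 → AlgebraicClosure F | v 1 = 1} :=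
        ⟨![t, 1], by simp, rfl⟩
      rw [hk', hP0, Set.mem_singleton_iff, hiter] at this
      simpa using congrFun this 0
    obtain ⟨hd, _⟩ := seq_X_natDegree (R := AlgebraicClosure F) p hp k
    have hne : (seq p (Polynomial.X : Polynomial (AlgebraicClosure F)) k).1 ≠ 0 := by
      intro h; rw [h] at hd; simp at hd
    apply hne
    apply Polynomial.funext
    intro t
    have := eval_seq p t k
    have h2 : Polynomial.eval t (seq p (Polynomial.X : Polynomial (AlgebraicClosure F)) k).1 =
        (seq p t k).1 := congrArg Prod.fst this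
    rw [h2, hall t, Polynomial.eval_zero]

end Pool.Agent.Results.MP_12bcff_ag.TwoVariables
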